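import Pool.Agent.H66.RtDefs
import Pool.Agent.H37.Gen

/-! No uniform threshold for complexity relative to solutions of the pigeonhole principle. -/

namespace Pool.Agent.Results.MP_7b562e_lc.No

open Pool.Agent.H66.Rt Pool.Agent.H37 Filter

theorem words (n : ℕ) : {w : List Bool | w.length < n}.ncard < 2 ^ n := by
  induction n with
  | zero => simp
  | succ n ih =>
    have fin := List.finite_length_lt Bool n
    have h : {w : List Bool | w.length < n + 1} ⊆ insert [] ((fun x : Bool × List Bool => x.1 :: x.2) ''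
        (Set.univ ×ˢ {w : List Bool | w.length < n})) := by
      rintro (_ | ⟨a, w⟩) h
      · simp
      · exact Or.inr ⟨(a, w), ⟨trivial, by simpa using h⟩, rfl⟩
    have f2 := (Set.finite_univ (α := Bool)).prod fin
    have h1 := (Set.ncard_le_ncard h ((f2.image _).insert _)).trans (Set.ncard_insert_le _ _)
    have h2 := Set.ncard_image_le (f := fun x : Bool × List Bool => x.1 :: x.2) f2
    rw [Set.ncard_prod, Set.ncard_univ, Nat.card_eq_fintype_card, Fintype.card_bool] at h2
    omega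

theorem hard (M : List Bool →. List Bool) (τ : List Bool) (L : ℕ) :
    ∃ r : List Bool, r.length = L ∧ ¬∃ q : List Bool, q.length < L ∧ τ ++ r ∈ M q := by
  by_contra h
  push Not at h
  choose f h1 h2 using fun v : List.Vector Bool L => h v.toList v.toList_length
  have := Set.ncard_le_ncard_of_injOn (s := Set.univ) f (fun v _ => h1 v) (fun v _ w _ e =>
    List.Vector.toList_injective (List.append_cancel_left (Part.mem_unique (h2 v) (e ▸ h2 w))))
    (List.finite_length_lt Bool L)
  rw [Set.ncard_univ, Nat.card_eq_fintype_card, card_vector, Fintype.card_bool] at this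
  exact (words L).not_ge this

theorem lim {α : ℕ → Bool} (h : CI (orc Kf) α) :
    ∃ a : ℕ → ℕ → Bool, CI ∅ (fun q : ℕ × ℕ => a q.1 q.2) ∧ ∀ i, ∀ᶠ s in atTop, a s i = α i := by
  obtain ⟨e, he⟩ := exists_app_tot (CI.toNat h)
  refine ⟨fun s i => U e ((List.range s).map fun j => (Kst j s).toNat) i == some 1, by fun_prop,
    fun i => ?_⟩
  obtain ⟨k, hk⟩ := mem_app.1 (he i)
  have : ∀ᶠ s in atTop, ∀ j ∈ Finset.range k, (Kst j s).toNat = Kf j :=
    (eventually_all_finset _).2 fun j _ => by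
      by_cases h : ∃ s, Kst j s = true
      · obtain ⟨s, hs⟩ := h
        obtain ⟨v, hv⟩ := Option.isSome_iff_exists.1 hs
        filter_upwards [eventually_ge_atTop s] with t ht
        simp [Kst_mono ht hs, Kf, Part.dom_iff_mem.2 ⟨v, ev_iff.2 ⟨s, hv⟩⟩]
      · refine .of_forall fun t => ?_
        rw [Kf, if_neg fun k => h ((ev_iff.1 (Part.get_mem k)).imp fun s hs => by simp [Kst, hs])]
        simpa using fun k => h ⟨t, k⟩
  filter_upwards [this, eventually_ge_atTop k] with s h1 h2
  rw [U_mon e _ _ _ _ ((pre_congr fun j hj => (h1 j (Finset.mem_range.2 hj)).symm) ▸ pre_pf _ h2) hk]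
  cases α i <;> rfl

theorem alpha {V : List Bool × ℕ →. List Bool} (hV : Partrec V) : ∃ α : ℕ → Bool, CI (orc Kf) α ∧
    ∀ k, ∃ h, ∀ q : List Bool, pre α (2 * h) ∈ V (q, k) → h + k < q.length := by
  obtain ⟨F, hF, -, eF⟩ := partrec_stage hV
  obtain ⟨b, b1, b2⟩ := ci_K (p := fun x : (ℕ × List Bool) × List Bool => ∃ q : List Bool,
    q.length < x.1.2.length + 2 * x.1.1 + 2 ∧ x.1.2 ++ x.2 ∈ V (q, x.1.1))
    (re_of_exists (fun x (y : List Bool × ℕ) => decide (y.1.length < x.1.2.length + 2 * x.1.1 + 2) &&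
      decide (F (y.1, x.1.1) y.2 = some (x.1.2 ++ x.2))) (CI.and (by fun_prop) (CI.eq (hF.comp
      (g := fun q : ((ℕ × List Bool) × List Bool) × List Bool × ℕ => ((q.2.1, q.1.1.1), q.2.2))
      (by fun_prop)) (by fun_prop))) fun x => by simp [eF])
  obtain ⟨f, f1, f2⟩ := CI.exists_choice (O := orc Kf) (p := fun (x : ℕ × List Bool) (r : List Bool) =>
    decide (r.length = x.2.length + 2 * x.1 + 2) && !b (x, r)) (by fun_prop) fun x =>
    (hard (fun q => V (q, x.1)) x.2 (x.2.length + 2 * x.1 + 2)).imp fun r h => by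
      simpa [h.1] using fun k => h.2 ((b2 (x, r)).2 k)
  simp only [Bool.and_eq_true, decide_eq_true_eq, Bool.not_eq_true', ← Bool.not_eq_true, ← b2] at f2
  let t : ℕ → List Bool := fun n => n.rec [] fun k τ => τ ++ f (k, τ)
  have t0 : CI (orc Kf) t := CI.of_rec1 (h := fun k τ => τ ++ f (k, τ)) (by fun_prop) fun _ => rfl
  have t1 : ∀ k, (t (k + 1)).length = 2 * ((t k).length + k + 1) := fun k => by
    have := (f2 (k, t k)).1
    simp only [t, List.length_append] at this ⊢; omega
  have t2 : ∀ {k l}, k ≤ l → t k <+: t l := fun h => by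
    induction h with
    | refl => rfl
    | step _ ih => exact ih.trans (List.prefix_append _ _)
  have t3 : ∀ k, pre (fun i => (t (i + 1)).getD i false) (t k).length = t k := fun k => by
    refine (pre_congr fun i hi => ?_).trans (pre_getD _ false)
    have := t1 i
    obtain ⟨u, hu⟩ := t2 (le_max_left k (i + 1))
    obtain ⟨v, hv⟩ := t2 (le_max_right k (i + 1))
    rw [← List.getD_append _ v _ _ (by omega), hv, ← hu, List.getD_append _ _ _ _ hi]
  refine ⟨fun i => (t (i + 1)).getD i false, by fun_prop, fun k =>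
    ⟨(t k).length + k + 1, fun q hq => ?_⟩⟩
  rw [← t1 k] at hq
  replace hq : t (k + 1) ∈ V (q, k) := (congrArg (· ∈ V (q, k)) (t3 (k + 1))).mp hq
  exact not_le.1 fun h => (f2 (k, t k)).2 ⟨q, by simp only; omega, hq⟩

theorem result (Φ : List Bool → List Bool → Option (List Bool)) (V : List Bool × ℕ →. List Bool)
    (hΦ : UnivO Φ) (hV : UnivC V) :
    ∃ A : Set ℕ, ∀ N c : ℕ, ∃ s, (⨆ X ∈ RT A, CO Φ X s) + c < ⨆ n ≥ N, CC V s n := by
  obtain ⟨α, h1, h2⟩ := alpha hV.1
  obtain ⟨a, a1, a2⟩ := lim h1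
  obtain ⟨G, hG, eG⟩ : ∃ G : ℕ × ℕ → Bool, CI ∅ G ∧ ∀ s i, a s i = G (s, i) := ⟨_, a1, fun _ _ => rfl⟩
  let P : List Bool → List Bool → ℕ → Bool := fun σ p x => σ.getD x false &&
    (List.range p.tail.length).all fun j => G (x, 2 * j + (p.headD false).toNat) == p.tail.getD j false
  obtain ⟨c0, hc⟩ := hΦ.2 (fun σ p => ((List.range σ.length).find? (P σ p)).map fun x =>
    (List.range (2 * p.tail.length)).map fun i => G (x, i)) ⟨CI.computable (by fun_prop), by
      rintro σ _ p v ⟨τ, rfl⟩ h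
      simp only [Option.map_eq_some_iff, List.find?_range_eq_some, List.mem_range] at h ⊢
      obtain ⟨x, ⟨x1, x2, x3⟩, x4⟩ := h
      have : ∀ y ≤ x, P (σ ++ τ) p y = P σ p y := fun y hy => by
        simp only [P, List.getD_append _ _ _ _ (hy.trans_lt x2)]
      exact ⟨x, ⟨this x le_rfl ▸ x1, by simp; omega, fun j hj => this j hj.le ▸ x3 j hj⟩, x4⟩⟩
  refine ⟨{x | ∃ i, a x i ≠ α i ∧ (∀ j < i, a x j = α j) ∧ i % 2 = 1}, fun N c => ?_⟩
  obtain ⟨h, hh⟩ := h2 (N + c + c0 + 1)
  have lo : ((h + (N + c + c0 + 1) + 1 : ℕ) : ℕ∞) ≤ ⨆ n ≥ N, CC V (pre α (2 * h)) n :=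
    le_iSup₂_of_le (N + c + c0 + 1) (by omega) (le_iInf₂ fun q hq => by exact_mod_cast hh q hq)
  refine ⟨pre α (2 * h), lt_of_le_of_lt (add_le_add_left (c := ((h + 1 + c0 : ℕ) : ℕ∞))
    (iSup₂_le fun X hX => ?_) _) (lt_of_lt_of_le (by exact_mod_cast by omega) lo)⟩
  obtain ⟨b, hb⟩ : ∃ b : Bool, ∀ x ∈ X, (∀ j < h, a x (2 * j + b.toNat) = α (2 * j + b.toNat)) →
      ∀ i < 2 * h, a x i = α i := by
    rcases hX.2 with k | k
    · refine ⟨true, fun x hx H i hi => ?_⟩
      obtain ⟨l, l1, l2, l3⟩ := k hx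
      refine l2 i (not_le.1 fun k => l1 ?_)
      simpa [show 2 * (l / 2) + 1 = l by omega] using H (l / 2) (by omega)
    · refine ⟨false, fun x hx H i hi => by_contra fun e => ?_⟩
      have ex : ∃ i, a x i ≠ α i := ⟨i, e⟩
      have := Nat.find_min' ex e
      refine k hx ⟨_, Nat.find_spec ex, fun j hj => not_not.1 (Nat.find_min ex hj),
        by_contra fun o => Nat.find_spec ex ?_⟩
      simpa [show 2 * (Nat.find ex / 2) = Nat.find ex by omega] using H (Nat.find ex / 2) (by omega)
  classical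
  let p := b :: pre (fun j => α (2 * j + b.toNat)) h
  have e : ∀ k x, x < k → (P (pre (fun i => decide (i ∈ X)) k) p x = true ↔ x ∈ X ∧
      ∀ j < h, a x (2 * j + b.toNat) = α (2 * j + b.toNat)) := fun k x hx => by
    simp only [P, p, getD_pre _ hx, List.tail_cons, length_pre, List.headD_cons, Bool.and_eq_true,
      decide_eq_true_eq, List.all_eq_true, List.mem_range, beq_iff_eq, ← eG]
    exact and_congr_right fun _ => forall₂_congr fun j hj => by rw [getD_pre _ hj]
  obtain ⟨N', hN⟩ := eventually_atTop.1 ((eventually_all_finset (Finset.range h)).2 fun j _ =>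
    a2 (2 * j + b.toNat))
  obtain ⟨x, x1, x2⟩ := hX.1.exists_gt N'
  obtain ⟨y, hy⟩ := Option.isSome_iff_exists.1 (List.find?_isSome.2 ⟨x, List.mem_range.2
    x.lt_succ_self, (e _ x x.lt_succ_self).2 ⟨x1, fun j hj => hN x x2.le j (Finset.mem_range.2 hj)⟩⟩)
  obtain ⟨q, q1, q2⟩ := hc X p (pre α (2 * h)) ⟨x + 1, by
    have := (e _ y (List.mem_range.1 (List.mem_of_find?_eq_some hy))).1 (List.find?_some hy)
    simp only [List.length_map, List.length_range]
    erw [hy]
    simp only [p, Option.map_some, List.tail_cons, length_pre, ← eG]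
    exact congrArg _ (pre_congr (hb y this.1 this.2))⟩
  exact (iInf₂_le q q2).trans (by exact_mod_cast by simpa [p] using q1)

end Pool.Agent.Results.MP_7b562e_lc.No
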